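import Pool.Agent.helper75.IQ.Spec

set_option autoImplicit false

namespace Pool.Agent.helper75.IQ

open MeasureTheory Set

theorem SUR_int : IntervalIntegrable (fun s : ℝ => (√(1 - s))⁻¹) volume 0 1 := by
  have h := (intervalIntegral.intervalIntegrable_rpow' (a := 1) (b := 0) (r := -1/2)
    (by norm_num)).comp_sub_left 1
  rw [sub_self, sub_zero] at h
  refine h.congr ?_
  intro x hx
  rw [uIoc_of_le zero_le_one] at hx
  have h1 : (0 : ℝ) ≤ 1 - x := by linarith [hx.2]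
  simp only
  rw [Real.sqrt_eq_rpow, ← Real.rpow_neg h1]
  norm_num

theorem SUR_sub (κ τ R : ℝ) (hR : 0 < R) : VV κ τ R =
    Real.pi * R ^ 3 * ∫ s in (0 : ℝ)..1, s * GG κ τ (R ^ 2 * s) * (√(1 - s))⁻¹ := by
  unfold VV
  have h := intervalIntegral.integral_comp_mul_left (a := 0) (b := 1) (c := R ^ 2)
    (fun w => w * GG κ τ w / √(1 - w / R ^ 2)) (by positivity)
  rw [mul_zero, mul_one, smul_eq_mul] at h
  have h2 : (∫ w in (0 : ℝ)..R ^ 2, w * GG κ τ w / √(1 - w / R ^ 2)) =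
      R ^ 2 * ∫ x in (0 : ℝ)..1, R ^ 2 * x * GG κ τ (R ^ 2 * x) / √(1 - R ^ 2 * x / R ^ 2) := by
    rw [h]
    field_simp
  rw [h2]
  have h3 : (∫ x in (0 : ℝ)..1, R ^ 2 * x * GG κ τ (R ^ 2 * x) / √(1 - R ^ 2 * x / R ^ 2)) =
      R ^ 2 * ∫ s in (0 : ℝ)..1, s * GG κ τ (R ^ 2 * s) * (√(1 - s))⁻¹ := by
    rw [← intervalIntegral.integral_const_mul]
    congr 1
    funext x
    rw [mul_div_cancel_left₀ x (by positivity : R ^ 2 ≠ 0), div_eq_mul_inv]
    ring
  rw [h3]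
  field_simp

theorem SUR_lam (κ b w : ℝ) (hκ : κ ≤ 0) (hb : -4 < κ * b ^ 2) (hw : w ≤ b ^ 2) :
    0 < 1 + κ / 4 * b ^ 2 ∧ 1 + κ / 4 * b ^ 2 ≤ 1 + κ / 4 * w := by
  constructor
  · linarith
  · nlinarith

theorem SUR_bd (κ τ b w : ℝ) (hκ : κ ≤ 0) (hb : -4 < κ * b ^ 2) (hw0 : 0 ≤ w) (hw : w ≤ b ^ 2) :
    0 ≤ GG κ τ w ∧ GG κ τ w ≤ √(1 + τ ^ 2 * b ^ 2) * ((1 + κ / 4 * b ^ 2)⁻¹) ^ 2 := by
  obtain ⟨h1, h2⟩ := SUR_lam κ b w hκ hb hw
  have h3 : 0 < 1 + κ / 4 * w := lt_of_lt_of_le h1 h2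
  unfold GG lam
  constructor
  · positivity
  · apply mul_le_mul
    · apply Real.sqrt_le_sqrt
      have := mul_le_mul_of_nonneg_left hw (sq_nonneg τ)
      linarith
    · apply pow_le_pow_left₀ (by positivity)
      exact inv_anti₀ h1 h2
    · positivity
    · positivity

theorem SUR_meas (κ τ c : ℝ) :
    Measurable fun s : ℝ => s * GG κ τ (c * s) * (√(1 - s))⁻¹ := by
  unfold GG lam
  fun_prop

theorem SUR_cont (κ τ b : ℝ) (hκ : κ ≤ 0) (hb0 : 0 < b) (hb : -4 < κ * b ^ 2) :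
    Continuous fun R : ℝ => ∫ s in (0 : ℝ)..1,
      s * GG κ τ ((max 0 (min b R)) ^ 2 * s) * (√(1 - s))⁻¹ := by
  have hp : ∀ R : ℝ, 0 ≤ (max 0 (min b R)) ^ 2 ∧ (max 0 (min b R)) ^ 2 ≤ b ^ 2 := by
    intro R
    have h1 : 0 ≤ max 0 (min b R) := le_max_left _ _
    have h2 : max 0 (min b R) ≤ b := max_le hb0.le (min_le_left _ _)
    exact ⟨by positivity, pow_le_pow_left₀ h1 h2 2⟩
  have hps : ∀ R s : ℝ, s ∈ Ioc (0 : ℝ) 1 → 0 ≤ (max 0 (min b R)) ^ 2 * s ∧
      (max 0 (min b R)) ^ 2 * s ≤ b ^ 2 := by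
    intro R s hs
    obtain ⟨h1, h2⟩ := hp R
    exact ⟨mul_nonneg h1 hs.1.le, by nlinarith [hs.1, hs.2]⟩
  refine intervalIntegral.continuous_of_dominated_interval
    (bound := fun s => √(1 + τ ^ 2 * b ^ 2) * ((1 + κ / 4 * b ^ 2)⁻¹) ^ 2 * (√(1 - s))⁻¹)
    (fun R => (SUR_meas κ τ _).aestronglyMeasurable) ?_ (SUR_int.const_mul _) ?_
  · intro R
    refine Filter.Eventually.of_forall fun s hs => ?_
    rw [uIoc_of_le zero_le_one] at hs
    obtain ⟨h1, h2⟩ := hps R s hs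
    obtain ⟨h3, h4⟩ := SUR_bd κ τ b _ hκ hb h1 h2
    rw [Real.norm_eq_abs, abs_of_nonneg (by have := hs.1; positivity)]
    apply mul_le_mul_of_nonneg_right _ (by positivity)
    calc s * GG κ τ ((max 0 (min b R)) ^ 2 * s) ≤ 1 * GG κ τ ((max 0 (min b R)) ^ 2 * s) :=
          mul_le_mul_of_nonneg_right hs.2 h3
      _ ≤ _ := by rw [one_mul]; exact h4
  · refine Filter.Eventually.of_forall fun s hs => ?_
    rw [uIoc_of_le zero_le_one] at hs
    unfold GG lam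
    have hc : Continuous fun R : ℝ => (1 + κ / 4 * ((max 0 (min b R)) ^ 2 * s)) := by fun_prop
    have hc' : Continuous fun R : ℝ => (1 + κ / 4 * ((max 0 (min b R)) ^ 2 * s))⁻¹ := by
      refine hc.inv₀ fun R => ?_
      obtain ⟨h1, h2⟩ := hps R s hs
      obtain ⟨h3, h4⟩ := SUR_lam κ b _ hκ hb h2
      exact (lt_of_lt_of_le h3 h4).ne'
    have hc2 : Continuous fun R : ℝ => √(1 + τ ^ 2 * ((max 0 (min b R)) ^ 2 * s)) := by fun_prop
    fun_prop

theorem SUR_ivt (κ τ V b : ℝ) (hκ : κ ≤ 0) (hV : 0 < V) (hb0 : 0 < b) (hb : -4 < κ * b ^ 2)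
    (hVb : V ≤ VV κ τ b) : ∃ R : ℝ, 0 < R ∧ -4 < κ * R ^ 2 ∧ VV κ τ R = V := by
  have hc := SUR_cont κ τ b hκ hb0 hb
  have hc2 : Continuous fun R : ℝ => Real.pi * R ^ 3 * ∫ s in (0 : ℝ)..1,
      s * GG κ τ ((max 0 (min b R)) ^ 2 * s) * (√(1 - s))⁻¹ := by
    have : Continuous fun R : ℝ => Real.pi * R ^ 3 := by fun_prop
    exact this.mul hc
  have hb1 : max 0 (min b b) = b := by rw [min_self, max_eq_right hb0.le]
  have hmem : V ∈ Icc ((fun R : ℝ => Real.pi * R ^ 3 * ∫ s in (0 : ℝ)..1,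
      s * GG κ τ ((max 0 (min b R)) ^ 2 * s) * (√(1 - s))⁻¹) 0)
      ((fun R : ℝ => Real.pi * R ^ 3 * ∫ s in (0 : ℝ)..1,
      s * GG κ τ ((max 0 (min b R)) ^ 2 * s) * (√(1 - s))⁻¹) b) := by
    constructor
    · simp only
      rw [zero_pow (by norm_num), mul_zero, zero_mul]
      exact hV.le
    · simp only
      rw [hb1, ← SUR_sub κ τ b hb0]
      exact hVb
  obtain ⟨R, hR, hRV⟩ := intermediate_value_Icc hb0.le hc2.continuousOn hmem
  simp only at hRV
  have hR0 : 0 < R := by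
    rcases hR.1.eq_or_lt with h | h
    · rw [← h, zero_pow (by norm_num), mul_zero, zero_mul] at hRV
      exact absurd hRV hV.ne
    · exact h
  refine ⟨R, hR0, ?_, ?_⟩
  · have : R ^ 2 ≤ b ^ 2 := pow_le_pow_left₀ hR0.le hR.2 2
    nlinarith
  · rw [SUR_sub κ τ R hR0, ← hRV, min_eq_right hR.2, max_eq_right hR0.le]

/-- lower bound for the volume: if `GG ≥ A` on `[R² c, R²]` -/
theorem SUR_low (κ τ R c A : ℝ) (hκ : κ ≤ 0) (hR0 : 0 < R) (hR : -4 < κ * R ^ 2) (hc0 : 0 ≤ c)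
    (hc1 : c ≤ 1) (hA0 : 0 ≤ A) (hA : ∀ s, c ≤ s → s ≤ 1 → A ≤ GG κ τ (R ^ 2 * s)) :
    Real.pi * R ^ 3 * (c * A * (1 - c)) ≤ VV κ τ R := by
  rw [SUR_sub κ τ R hR0]
  apply mul_le_mul_of_nonneg_left _ (by positivity)
  have hnn : ∀ s ∈ Icc (0 : ℝ) 1, 0 ≤ s * GG κ τ (R ^ 2 * s) * (√(1 - s))⁻¹ := by
    intro s hs
    have := (SUR_bd κ τ R (R ^ 2 * s) hκ hR (by have := hs.1; positivity)
      (by nlinarith [hs.2, sq_nonneg R])).1
    have := hs.1
    positivity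
  have hcG : ContinuousOn (fun s : ℝ => s * GG κ τ (R ^ 2 * s)) (Icc 0 1) := by
    unfold GG lam
    have hd : ContinuousOn (fun s : ℝ => (1 + κ / 4 * (R ^ 2 * s))⁻¹) (Icc 0 1) := by
      apply ContinuousOn.inv₀ (by fun_prop)
      intro s hs
      obtain ⟨h3, h4⟩ := SUR_lam κ R (R ^ 2 * s) hκ hR (by nlinarith [hs.2, sq_nonneg R])
      exact (lt_of_lt_of_le h3 h4).ne'
    have hd2 : ContinuousOn (fun s : ℝ => √(1 + τ ^ 2 * (R ^ 2 * s))) (Icc 0 1) := by fun_prop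
    fun_prop
  have hint : IntervalIntegrable (fun s => s * GG κ τ (R ^ 2 * s) * (√(1 - s))⁻¹) volume 0 1 := by
    apply SUR_int.continuousOn_mul
    rw [uIcc_of_le zero_le_one]
    exact hcG
  have hi1 : IntervalIntegrable (fun s => s * GG κ τ (R ^ 2 * s) * (√(1 - s))⁻¹) volume 0 c :=
    hint.mono_set (by
      rw [uIcc_of_le hc0, uIcc_of_le zero_le_one]
      exact Icc_subset_Icc le_rfl hc1)
  have hi2 : IntervalIntegrable (fun s => s * GG κ τ (R ^ 2 * s) * (√(1 - s))⁻¹) volume c 1 :=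
    hint.mono_set (by
      rw [uIcc_of_le hc1, uIcc_of_le zero_le_one]
      exact Icc_subset_Icc hc0 le_rfl)
  rw [← intervalIntegral.integral_add_adjacent_intervals hi1 hi2]
  have h1 : 0 ≤ ∫ s in (0 : ℝ)..c, s * GG κ τ (R ^ 2 * s) * (√(1 - s))⁻¹ :=
    intervalIntegral.integral_nonneg hc0 fun s hs => hnn s ⟨hs.1, hs.2.trans hc1⟩
  have h2 : c * A * (1 - c) ≤ ∫ s in c..(1 : ℝ), s * GG κ τ (R ^ 2 * s) * (√(1 - s))⁻¹ := by
    have h3 : (∫ _ in c..(1 : ℝ), c * A) = c * A * (1 - c) := by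
      rw [intervalIntegral.integral_const, smul_eq_mul]; ring
    rw [← h3]
    refine intervalIntegral.integral_mono_on_of_le_Ioo hc1 (by simp) hi2 fun s hs => ?_
    have h4 : 0 < √(1 - s) := Real.sqrt_pos.2 (by linarith [hs.2])
    have h5 : √(1 - s) ≤ 1 := by
      exact Real.sqrt_le_one.2 (by linarith [hs.1])
    have h6 : 1 ≤ (√(1 - s))⁻¹ := (one_le_inv₀ h4).2 h5
    have h7 : c * A ≤ s * GG κ τ (R ^ 2 * s) :=
      mul_le_mul hs.1.le (hA s hs.1.le hs.2.le) hA0 (hc0.trans hs.1.le)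
    calc c * A ≤ s * GG κ τ (R ^ 2 * s) := h7
      _ = s * GG κ τ (R ^ 2 * s) * 1 := by ring
      _ ≤ _ := mul_le_mul_of_nonneg_left h6 (le_trans (mul_nonneg hc0 hA0) h7)
  linarith

theorem SUR : SUR_stmt := by
  intro κ τ V hκ hV
  have hpi : 1 < Real.pi := by linarith [Real.pi_gt_three]
  rcases hκ.eq_or_lt with h0 | hneg
  · subst h0
    set b : ℝ := max 1 (4 * V) with hb
    have hb1 : 1 ≤ b := le_max_left _ _
    have hbV : 4 * V ≤ b := le_max_right _ _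
    refine SUR_ivt 0 τ V b le_rfl hV (by linarith) (by norm_num) ?_
    have h := SUR_low 0 τ b (1 / 2) 1 le_rfl (by linarith) (by norm_num) (by norm_num)
      (by norm_num) zero_le_one (by
        intro s hs _
        unfold GG lam
        simp only [zero_div, zero_mul, add_zero, inv_one, one_pow, mul_one]
        rw [Real.one_le_sqrt]
        have : 0 ≤ τ ^ 2 * (b ^ 2 * s) := by positivity
        linarith)
    refine le_trans ?_ h
    have h3 : b ≤ b ^ 3 := by nlinarith [sq_nonneg b, mul_nonneg (sub_nonneg.2 hb1) (sub_nonneg.2 hb1)]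
    nlinarith
  · set k : ℝ := -κ / 4 with hk
    have hk0 : 0 < k := by rw [hk]; linarith
    set B : ℝ := √(1 / (2 * k)) ^ 3 with hB
    have hB0 : 0 < B := by
      rw [hB]
      have : 0 < √(1 / (2 * k)) := Real.sqrt_pos.2 (by positivity)
      positivity
    set ε : ℝ := min (1 / 2) (B / (8 * V)) with hε
    have hε0 : 0 < ε := lt_min (by norm_num) (by positivity)
    have hε1 : ε ≤ 1 / 2 := min_le_left _ _
    have hε2 : ε ≤ B / (8 * V) := min_le_right _ _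
    set b : ℝ := √((1 - ε) / k) with hb
    have hb2 : b ^ 2 = (1 - ε) / k := Real.sq_sqrt (by
      apply div_nonneg _ hk0.le
      linarith)
    have hb0 : 0 < b := Real.sqrt_pos.2 (by
      apply div_pos _ hk0
      linarith)
    have hkb : k * b ^ 2 = 1 - ε := by rw [hb2]; field_simp
    have hκk : κ = -4 * k := by rw [hk]; ring
    have hκb : -4 < κ * b ^ 2 := by
      rw [hκk]
      have : -4 * k * b ^ 2 = -4 * (1 - ε) := by rw [← hkb]; ring
      rw [this]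
      linarith
    refine SUR_ivt κ τ V b hκ hV hb0 hκb ?_
    have h := SUR_low κ τ b (1 - ε) (1 / (4 * ε ^ 2)) hκ hb0 hκb (by linarith) (by linarith)
      (by positivity) (by
        intro s hs hs1
        have hs0 : 0 ≤ s := by linarith
        have e1 : 1 + κ / 4 * (b ^ 2 * s) = 1 - (1 - ε) * s := by
          rw [hκk, ← hkb]; ring
        have e2 : 1 - (1 - ε) * s ≤ 2 * ε := by nlinarith
        have e3 : 0 < 1 - (1 - ε) * s := by nlinarith
        unfold GG lam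
        rw [e1]
        have e4 : 1 ≤ √(1 + τ ^ 2 * (b ^ 2 * s)) := by
          rw [Real.one_le_sqrt]
          have : 0 ≤ τ ^ 2 * (b ^ 2 * s) := by positivity
          linarith
        have e5 : 1 / (4 * ε ^ 2) ≤ ((1 - (1 - ε) * s)⁻¹) ^ 2 := by
          rw [inv_pow, one_div]
          apply inv_anti₀ (by positivity)
          nlinarith
        calc 1 / (4 * ε ^ 2) ≤ ((1 - (1 - ε) * s)⁻¹) ^ 2 := e5
          _ = 1 * ((1 - (1 - ε) * s)⁻¹) ^ 2 := by ring
          _ ≤ _ := mul_le_mul_of_nonneg_right e4 (by positivity))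
    refine le_trans ?_ h
    have hBb : B ≤ b ^ 3 := by
      rw [hB, hb]
      apply pow_le_pow_left₀ (Real.sqrt_nonneg _)
      apply Real.sqrt_le_sqrt
      rw [div_le_div_iff₀ (by positivity) hk0]
      nlinarith
    have e6 : (1 - ε) * (1 / (4 * ε ^ 2)) * (1 - (1 - ε)) = (1 - ε) / (4 * ε) := by
      field_simp
      ring
    rw [e6]
    have e7 : 1 / (8 * ε) ≤ (1 - ε) / (4 * ε) := by
      rw [div_le_div_iff₀ (by positivity) (by positivity)]
      nlinarith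
    have e8 : V ≤ B * (1 / (8 * ε)) := by
      rw [le_div_iff₀ (by positivity)] at hε2
      rw [mul_one_div, le_div_iff₀ (by positivity)]
      linarith
    have e9 : 0 < 1 / (8 * ε) := by positivity
    calc V ≤ B * (1 / (8 * ε)) := e8
      _ ≤ b ^ 3 * ((1 - ε) / (4 * ε)) := mul_le_mul hBb e7 e9.le (by positivity)
      _ = 1 * b ^ 3 * ((1 - ε) / (4 * ε)) := by ring
      _ ≤ Real.pi * b ^ 3 * ((1 - ε) / (4 * ε)) := by
        apply mul_le_mul_of_nonneg_right _ (le_trans e9.le e7)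
        apply mul_le_mul_of_nonneg_right hpi.le (by positivity)

end Pool.Agent.helper75.IQ
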